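import Pool.Agent.Lib.MP_820104_pr.All

open Pool.Agent.Lib.MP_820104_pr Filter

theorem Pool.Agent.Results.MP_820104_pr.BigHeight.result :
    ∃ (G : Type) (_ : Group G) (S : Finset G) (μ : ℕ → ℝ),
      (∀ k, 3 ≤ k → 1 ∉ gens k S ∧ (∀ s ∈ gens k S, s⁻¹ ∈ gens k S) ∧
        Subgroup.closure (gens k S : Set (FP G k)) = ⊤ ∧ Planar (gens k S) ∧
        (gens k S).card = k * S.card ∧ IsConn (gens k S) (μ k)) ∧
      ∀ D B : ℕ, ∀ᶠ k in atTop, ¬AlgLe D (k ^ B) (μ k) :=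
  Tb.big_height Tb.tree_not_alg
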