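import Pool.Agent.Lib.MP_820104_pr.Ren
import Pool.Agent.Lib.MP_820104_pr.Plan

open Pool.Agent.Lib.MP_820104_pr Filter

theorem Pool.Agent.Results.MP_820104_pr.FreePowers.result :
    ∃ μ : ℕ → ℝ,
      (∀ k, 3 ≤ k → 1 ∉ gens k sqGen ∧ (∀ s ∈ gens k sqGen, s⁻¹ ∈ gens k sqGen) ∧
        Subgroup.closure (gens k sqGen : Set (FP (Multiplicative (ℤ × ℤ)) k)) = ⊤ ∧
        Planar (gens k sqGen) ∧ IsConn (gens k sqGen) (μ k)) ∧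
      [IsAlgebraic (Polynomial ℤ) (sawGF sqGen),
        ∃ D B : ℕ, ∀ᶠ k in atTop, AlgLe D (k ^ B) (μ k),
        ∃ D B : ℕ, ∃ᶠ k in atTop, AlgLe D (k ^ B) (μ k)].TFAE := by
  obtain ⟨r, μ, h1, h2⟩ := exists_hy one_sq ⟨.ofAdd (1, 0), by simp [sqGen]⟩
  refine ⟨μ, fun k hk => ⟨one_gens one_sq, inv_gens inv_sq, closure_gens closure_sq, planar_sq k,
    h2 k hk⟩, ?_⟩
  tfae_have 1 → 2 := h1.of_alg
  tfae_have 2 → 3 := fun ⟨D, B, h⟩ => ⟨D, B, h.frequently⟩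
  tfae_have 3 → 1 := fun ⟨_, _, h⟩ => h1.alg h
  tfae_finish
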