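import Pool.Agent.Lib.MP_820104_pr.All

open Pool.Agent.Lib.MP_820104_pr

theorem Pool.Agent.Results.MP_820104_pr.NonHolonomic.result :
    ∃ (G : Type) (_ : Group G) (S : Finset G) (E : Finset ℕ), E.card ≤ 2 ∧ ∀ k, 1 ≤ k → k ∉ E →
      1 ∉ gens k S ∧ (∀ s ∈ gens k S, s⁻¹ ∈ gens k S) ∧
      Subgroup.closure (gens k S : Set (FP G k)) = ⊤ ∧ Planar (gens k S) ∧
      (gens k S).card = k * S.card ∧
      LinearIndependent (Polynomial ℤ)
        fun i : ℕ => (PowerSeries.derivative ℤ)^[i] (sawGF (gens k S)) :=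
  Tb.non_holonomic Tb.tree_not_alg
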